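import Pool.Agent.W844.LIS.Main

/-!
# Almost sure bound for the longest increasing subsequence of a random walk (MP_05a99f_pr)

Kolmogorov's maximal inequality makes the probability of the bad event at scale `K` summable, so
that the bound of Pool/Agent/W844/LIS/Main.lean holds almost surely for all large `n`.
-/

set_option autoImplicit false
set_option linter.unusedSectionVars false
set_option linter.unusedVariables false

open MeasureTheory ProbabilityTheory Filter Finset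
open scoped Topology ENNReal

namespace Pool.Agent.Y944.LIS

open Pool.Agent.W844.LIS

variable {Ω : Type*} [mΩ : MeasurableSpace Ω] {μ : Measure Ω} {X : ℕ → Ω → ℝ}

theorem submart_sq (h : Walk μ X) : Submartingale (fun n ω => (S X n ω) ^ 2) h.filt μ := by
  have := h.prob
  have hint : ∀ n, Integrable (fun ω => (S X n ω) ^ 2) μ := fun n => (h.memLp_S n).integrable_sq
  refine submartingale_nat ?_ hint fun n => ?_
  · intro n
    have h1 : Measurable[past X n] (S X n) := meas_past_S le_rfl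
    have h2 : Measurable[past X n] (fun ω => (S X n ω) ^ 2) := h1.pow_const 2
    exact h2.stronglyMeasurable
  · have hm : Measurable[past X n] (S X n) := meas_past_S le_rfl
    have hmul : Integrable (S X n * X n) μ := (h.memLp_S n).integrable_mul (h.memLp_X n)
    have e : (fun ω => (S X (n + 1) ω) ^ 2) =
        (fun ω => (S X n ω) ^ 2) + ((fun ω => 2 * (S X n * X n) ω) + fun ω => (X n ω) ^ 2) := by
      funext ω
      simp only [Pi.add_apply, Pi.mul_apply]
      rw [S_succ]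
      ring
    have hX2 : Integrable (fun ω => (X n ω) ^ 2) μ := (h.memLp_X n).integrable_sq
    have h1 : μ[fun ω => (S X n ω) ^ 2 | past X n] = fun ω => (S X n ω) ^ 2 :=
      condExp_of_stronglyMeasurable (h.past_le n) (hm.pow_const 2).stronglyMeasurable (hint n)
    have h2 : μ[X n | past X n] =ᵐ[μ] fun _ => ∫ ω, X n ω ∂μ := by
      refine condExp_indep_eq (m₁ := MeasurableSpace.comap (X n) inferInstance)
        (h.meas n).comap_le (h.past_le n) (comap_measurable (X n)).stronglyMeasurable ?_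
      refine (indep_of_indep_of_le_right (h.indep_past_fut n) ?_).symm
      exact (meas_fut_X (le_refl n)).comap_le
    have h3 : μ[S X n * X n | past X n] =ᵐ[μ] S X n * μ[X n | past X n] :=
      condExp_mul_of_stronglyMeasurable_left hm.stronglyMeasurable hmul (h.int_X n)
    have h4 : μ[fun ω => 2 * (S X n * X n) ω | past X n] =ᵐ[μ]
        fun ω => 2 * (μ[S X n * X n | past X n]) ω := condExp_ofNat 2 (S X n * X n)
    have h5 : 0 ≤ᵐ[μ] μ[fun ω => (X n ω) ^ 2 | past X n] :=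
      condExp_nonneg (Filter.Eventually.of_forall fun ω => sq_nonneg _)
    have h6 := condExp_add (hint n) ((hmul.const_mul 2).add hX2) (past X n) (μ := μ)
    have h7 := condExp_add (hmul.const_mul 2) hX2 (past X n) (μ := μ)
    show (fun ω => (S X n ω) ^ 2) ≤ᵐ[μ] μ[fun ω => (S X (n + 1) ω) ^ 2 | past X n]
    rw [e]
    filter_upwards [h2, h3, h4, h5, h6, h7] with ω g2 g3 g4 g5 g6 g7
    rw [g6, Pi.add_apply, g7, Pi.add_apply, g4, g3, Pi.mul_apply, g2, h.mean_X n, h1]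
    simp only [mul_zero, zero_add]
    have : (0 : ℝ) ≤ (μ[fun ω => (X n ω) ^ 2 | past X n]) ω := g5
    linarith

/-- Kolmogorov's maximal inequality -/
theorem maximal_sq (h : Walk μ X) (n : ℕ) (w : ℝ) (hw : 0 < w) :
    μ {ω | ∃ t ≤ n, w ≤ |S X t ω|} ≤ ENNReal.ofReal (n * vr μ X / w ^ 2) := by
  have := h.prob
  have hw2 : 0 < w ^ 2 := by positivity
  have h1 := maximal_ineq (submart_sq h) (fun n ω => sq_nonneg (S X n ω)) (ε := (w ^ 2).toNNReal) n
  have h2 : {ω | ∃ t ≤ n, w ≤ |S X t ω|} ⊆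
      {ω | (((w ^ 2).toNNReal : NNReal) : ℝ) ≤
        (range (n + 1)).sup' nonempty_range_add_one fun k => (S X k ω) ^ 2} := by
    rintro ω ⟨t, ht, hwt⟩
    show (((w ^ 2).toNNReal : NNReal) : ℝ) ≤ _
    rw [Real.coe_toNNReal _ hw2.le]
    have h0 : w ^ 2 ≤ (S X t ω) ^ 2 := by
      rw [← sq_abs (S X t ω)]
      exact pow_le_pow_left₀ hw.le hwt 2
    refine h0.trans ?_
    exact Finset.le_sup' (fun k => (S X k ω) ^ 2) (mem_range.2 (Nat.lt_succ_of_le ht))
  have h3 : ENNReal.ofReal (∫ ω in {ω | (((w ^ 2).toNNReal : NNReal) : ℝ) ≤ (range (n + 1)).sup'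
      nonempty_range_add_one fun k => (S X k ω) ^ 2}, (S X n ω) ^ 2 ∂μ) ≤
      ENNReal.ofReal (n * vr μ X) := by
    refine ENNReal.ofReal_le_ofReal ?_
    rw [← h.sq_S n]
    exact setIntegral_le_integral (h.memLp_S n).integrable_sq
      (Filter.Eventually.of_forall fun ω => sq_nonneg _)
  have h4 : ((w ^ 2).toNNReal : ℝ≥0∞) * μ {ω | ∃ t ≤ n, w ≤ |S X t ω|} ≤
      ENNReal.ofReal (n * vr μ X) :=
    (mul_le_mul_right (measure_mono h2) _).trans (h1.trans h3)
  rw [ENNReal.ofReal_div_of_pos hw2, ENNReal.le_div_iff_mul_le (Or.inl (by simpa using hw.ne'))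
    (Or.inl ENNReal.ofReal_ne_top), mul_comm]
  exact h4

/-- the bad event -/
def bad (μ : Measure Ω) (X : ℕ → Ω → ℝ) (σ : ℝ) (K : ℕ) : Set Ω :=
  {ω | ∃ t ≤ 4 ^ K, (K * 2 ^ K : ℝ) ≤ |S X t ω|} ∪ ⋃ k ∈ Finset.range K, badEv μ X σ K k

theorem meas_bad (h : Walk μ X) {σ : ℝ} (hσ : 0 < σ) (hσ2 : ∀ m : ℕ, A μ X m 0 ≤ σ * √m)
    {K : ℕ} (hK1 : 1 ≤ K) :
    μ (bad μ X σ K) ≤ ENNReal.ofReal (vr μ X / (K : ℝ) ^ 2 + K * Real.exp (-K)) := by
  have hK0 : (0 : ℝ) < K := by exact_mod_cast hK1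
  have hv : 0 < vr μ X := h.var
  have hB1m : μ {ω | ∃ t ≤ 4 ^ K, (K * 2 ^ K : ℝ) ≤ |S X t ω|} ≤
      ENNReal.ofReal (vr μ X / (K : ℝ) ^ 2) := by
    refine (maximal_sq h (4 ^ K) (K * 2 ^ K) (by positivity)).trans
      (ENNReal.ofReal_le_ofReal (le_of_eq ?_))
    have e4 : (((4 ^ K : ℕ) : ℝ)) = (2 ^ K : ℝ) ^ 2 := by
      push_cast
      rw [← pow_mul, mul_comm, pow_mul]; norm_num
    rw [e4]
    field_simp
  have hB2m : μ (⋃ k ∈ Finset.range K, badEv μ X σ K k) ≤
      ENNReal.ofReal (K * Real.exp (-K)) := by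
    refine (measure_biUnion_finset_le _ _).trans ?_
    calc ∑ k ∈ Finset.range K, μ (badEv μ X σ K k)
        ≤ ∑ k ∈ Finset.range K, ENNReal.ofReal (Real.exp (-K)) :=
          Finset.sum_le_sum fun k hk => h.meas_badEv hσ hσ2 (Finset.mem_range.1 hk)
      _ = ENNReal.ofReal (K * Real.exp (-K)) := by
          rw [Finset.sum_const, Finset.card_range, nsmul_eq_mul, ENNReal.ofReal_mul hK0.le,
            ENNReal.ofReal_natCast]
  refine (measure_union_le _ _).trans ((add_le_add hB1m hB2m).trans ?_)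
  rw [← ENNReal.ofReal_add (by positivity) (by positivity)]

/-- outside the bad event the subsequences are short -/
theorem good (h : Walk μ X) : ∃ σ C : ℝ, ∃ K₀ : ℕ, 0 < σ ∧ 0 ≤ C ∧
    (∀ m : ℕ, A μ X m 0 ≤ σ * √m) ∧ ∀ K : ℕ, 1 ≤ K → K₀ ≤ K → ∀ ω, ω ∉ bad μ X σ K →
      (lis (fun t => S X t ω) (4 ^ K) : ℝ) ≤ C * (K ^ 5 * 2 ^ K) := by
  have := h.prob
  obtain ⟨c, hc0, hc⟩ := h.lower
  have hσ : 0 < √(vr μ X) := Real.sqrt_pos.2 h.var
  have hσ2 : ∀ m : ℕ, A μ X m 0 ≤ √(vr μ X) * √m := h.A_zero_le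
  have hA1 := h.A_one_pos
  obtain ⟨K₀, hK₀⟩ := exists_nat_ge (max (24 / c)
    (2 * (12 / c * ((1 + 36 * vr μ X / c ^ 2) * BW))))
  refine ⟨√(vr μ X), Real.exp (2 * (12 / c * ((1 + 36 * vr μ X / c ^ 2) * BW)) + 1) *
    (73 * √(vr μ X)) / A μ X 1 0, K₀, hσ, by positivity, hσ2, ?_⟩
  intro K hK1 hK ω hω
  have hKl : max (24 / c) (2 * (12 / c * ((1 + 36 * vr μ X / c ^ 2) * BW))) ≤ (K : ℝ) :=
    hK₀.trans (by exact_mod_cast hK)
  unfold bad at hω
  rw [Set.mem_union, not_or] at hω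
  have g1 : ∀ t ≤ 4 ^ K, |S X t ω| < K * 2 ^ K := by
    intro t ht
    by_contra hcon
    exact hω.1 ⟨t, ht, not_lt.1 hcon⟩
  have g2 : ∀ k < K, ω ∉ badEv μ X (√(vr μ X)) K k := by
    intro k hk hcon
    exact hω.2 (Set.mem_biUnion (Finset.mem_coe.2 (Finset.mem_range.2 hk)) hcon)
  exact h.good_event hσ hσ2 hc0 hc hK1 ((le_max_left _ _).trans hKl)
    ((le_max_right _ _).trans hKl) g1 g2

/-- almost surely only finitely many scales are bad -/
theorem ae_good (h : Walk μ X) {σ : ℝ} (hσ : 0 < σ) (hσ2 : ∀ m : ℕ, A μ X m 0 ≤ σ * √m) :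
    ∀ᵐ ω ∂μ, ∀ᶠ K : ℕ in atTop, ω ∉ bad μ X σ K := by
  have hv : 0 < vr μ X := h.var
  have hsum : Summable fun K : ℕ => vr μ X / (K : ℝ) ^ 2 + K * Real.exp (-K) := by
    refine Summable.add ?_ ?_
    · have := (Real.summable_one_div_nat_pow (p := 2)).2 (by norm_num)
      refine (this.mul_left (vr μ X)).congr fun K => ?_
      ring
    · have := Real.summable_pow_mul_exp_neg_nat_mul 1 (r := 1) one_pos
      refine this.congr fun K => ?_
      simp
  have hne : ∑' K : ℕ, μ (if K = 0 then ∅ else bad μ X σ K) ≠ ∞ := by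
    have hle : ∑' K : ℕ, μ (if K = 0 then ∅ else bad μ X σ K) ≤
        ∑' K : ℕ, ENNReal.ofReal (vr μ X / (K : ℝ) ^ 2 + K * Real.exp (-K)) := by
      refine ENNReal.tsum_le_tsum fun K => ?_
      by_cases hK : K = 0
      · rw [if_pos hK, measure_empty]
        exact bot_le
      · rw [if_neg hK]
        exact meas_bad h hσ hσ2 (Nat.one_le_iff_ne_zero.2 hK)
    refine ne_top_of_le_ne_top ?_ hle
    rw [← ENNReal.ofReal_tsum_of_nonneg (fun K => by positivity) hsum]
    exact ENNReal.ofReal_ne_top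
  filter_upwards [ae_eventually_notMem hne] with ω hω
  filter_upwards [hω, eventually_ge_atTop 1] with K hK hK1
  rwa [if_neg (by omega)] at hK

/-- **The main theorem.** -/
theorem main (h : Walk μ X) : ∃ C : ℝ, 0 < C ∧
    (∀ᵐ ω ∂μ, ∀ᶠ n : ℕ in atTop,
      (lis (fun t => S X t ω) n : ℝ) ≤ C * (√n * (Real.log n) ^ 5)) ∧
    ∀ᶠ n : ℕ in atTop, μ {ω | C * (√n * (Real.log n) ^ 5) < (lis (fun t => S X t ω) n : ℝ)} ≤
      ENNReal.ofReal (C / (Real.log n) ^ 2) := by
  have := h.prob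
  have hv : 0 < vr μ X := h.var
  obtain ⟨σ, C₀, K₀, hσ, hC₀, hσ2, hgood⟩ := good h
  set C : ℝ := 2 * C₀ + 2 * (vr μ X + 1) with hC
  have hCpos : 0 < C := by positivity
  have hlog : Tendsto (fun n : ℕ => Real.log n) atTop atTop :=
    Real.tendsto_log_atTop.comp tendsto_natCast_atTop_atTop
  -- from the dyadic scale to `n`
  have hn : ∀ᶠ n : ℕ in atTop, ∀ ω, ω ∉ bad μ X σ (Nat.clog 4 n) →
      (lis (fun t => S X t ω) n : ℝ) ≤ C * (√n * (Real.log n) ^ 5) := by
    filter_upwards [clog_bounds, tendsto_clog.eventually_ge_atTop (max K₀ 1),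
      hlog.eventually_ge_atTop 1] with n hcl hKl hlog1 ω hω
    have hK1 : 1 ≤ Nat.clog 4 n := (le_max_right _ _).trans hKl
    have hKK : K₀ ≤ Nat.clog 4 n := (le_max_left _ _).trans hKl
    have g3 := hgood _ hK1 hKK ω hω
    have g4 : (lis (fun t => S X t ω) n : ℝ) ≤ lis (fun t => S X t ω) (4 ^ Nat.clog 4 n) := by
      exact_mod_cast lis_mono _ (Nat.le_pow_clog (by norm_num) n)
    refine g4.trans (g3.trans ?_)
    have hlog0 : (0 : ℝ) < Real.log n := by linarith
    calc C₀ * (((Nat.clog 4 n : ℕ) : ℝ) ^ 5 * 2 ^ Nat.clog 4 n)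
        ≤ C₀ * ((Real.log n) ^ 5 * (2 * √n)) := by
          gcongr
          · exact hcl.1
          · exact hcl.2
      _ = (2 * C₀) * (√n * (Real.log n) ^ 5) := by ring
      _ ≤ C * (√n * (Real.log n) ^ 5) := by
          have : 2 * C₀ ≤ C := by rw [hC]; linarith
          gcongr
  refine ⟨C, hCpos, ?_, ?_⟩
  · filter_upwards [ae_good h hσ hσ2] with ω hω
    filter_upwards [hn, tendsto_clog.eventually hω] with n h1 h2
    exact h1 ω h2
  · have he : ∀ᶠ K : ℕ in atTop, (K : ℝ) * Real.exp (-K) ≤ 1 / (K : ℝ) ^ 2 := by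
      have h0 := (Real.tendsto_pow_mul_exp_neg_atTop_nhds_zero 3).comp
        (tendsto_natCast_atTop_atTop (R := ℝ))
      filter_upwards [h0.eventually (ge_mem_nhds one_pos), eventually_ge_atTop 1] with K hK hK1
      have hK0 : (0 : ℝ) < K := by exact_mod_cast hK1
      rw [le_div_iff₀ (by positivity)]
      have : (K : ℝ) * Real.exp (-K) * (K : ℝ) ^ 2 = (K : ℝ) ^ 3 * Real.exp (-K) := by ring
      rw [this]
      exact hK
    filter_upwards [hn, tendsto_clog.eventually he, tendsto_clog.eventually_ge_atTop 1,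
      hlog.eventually_ge_atTop 1, eventually_ge_atTop 2] with n h1 h2 hK1 hlog1 hn2
    have hsub : {ω | C * (√n * (Real.log n) ^ 5) < (lis (fun t => S X t ω) n : ℝ)} ⊆
        bad μ X σ (Nat.clog 4 n) := by
      intro ω hω
      by_contra hcon
      exact absurd (h1 ω hcon) (not_le.2 hω)
    refine (measure_mono hsub).trans ((meas_bad h hσ hσ2 hK1).trans
      (ENNReal.ofReal_le_ofReal ?_))
    set K := Nat.clog 4 n with hK
    have hK0 : (0 : ℝ) < K := by exact_mod_cast hK1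
    have hlog0 : (0 : ℝ) < Real.log n := by linarith
    have hnK : (n : ℝ) ≤ 4 ^ K := by exact_mod_cast Nat.le_pow_clog (by norm_num) n
    have hn0 : (0 : ℝ) < n := by positivity
    have h3 : Real.log n ≤ K * Real.log 4 := by
      have := Real.log_le_log hn0 hnK
      rwa [Real.log_pow] at this
    have h4 : Real.log 4 ≤ 1.39 := by
      have e : Real.log 4 = 2 * Real.log 2 := by
        rw [show (4 : ℝ) = 2 ^ 2 by norm_num, Real.log_pow]; norm_num
      rw [e]
      have := Real.log_two_lt_d9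
      linarith
    have h5 : Real.log n ≤ 1.39 * K := by nlinarith
    have h6 : (Real.log n) ^ 2 ≤ 2 * (K : ℝ) ^ 2 := by
      have h7 : (Real.log n) ^ 2 ≤ (1.39 * K) ^ 2 := pow_le_pow_left₀ hlog0.le h5 2
      nlinarith [sq_nonneg (K : ℝ)]
    calc vr μ X / (K : ℝ) ^ 2 + K * Real.exp (-K) ≤ vr μ X / (K : ℝ) ^ 2 + 1 / (K : ℝ) ^ 2 := by
          linarith
      _ = (vr μ X + 1) / (K : ℝ) ^ 2 := by ring
      _ ≤ C / (Real.log n) ^ 2 := by
          rw [div_le_div_iff₀ (by positivity) (by positivity)]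
          have h8 : 2 * (vr μ X + 1) ≤ C := by rw [hC]; linarith
          calc (vr μ X + 1) * (Real.log n) ^ 2 ≤ (vr μ X + 1) * (2 * (K : ℝ) ^ 2) := by gcongr
            _ = (2 * (vr μ X + 1)) * (K : ℝ) ^ 2 := by ring
            _ ≤ C * (K : ℝ) ^ 2 := by gcongr

end Pool.Agent.Y944.LIS
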